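import Pool.Agent.Work.Helper86.Machine

set_option autoImplicit false
set_option linter.all false

namespace Pool.Agent.Work.MP_8a6a08_lc

open Helper86

/-- states of the head -/
inductive Head (M : CM) : Type
  | st (q : M.Q)
  | seek (r : Fin M.B) (b : Bool) (q : M.Q)
  | put (r : Fin M.B) (q : M.Q)
  | ret (q : M.Q)
  | halted

/-- head, home flag and tracks -/
abbrev Cell (M : CM) := Option (Head M) × Bool × (Fin M.B → Bool)

open Head

variable {M : CM} (r0 : Fin M.B)

/-- action of a head: new state, new tracks, move -/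
def act : Head M → Bool → (Fin M.B → Bool) → Head M × (Fin M.B → Bool) × ℤ
  | st q, _, tr =>
     letI := M.deq
     if q = M.hlt then (halted, fun r => if r = r0 then tr r else false, 0)
     else match M.op q (!(tr (M.reg q))) with
       | Op.nop => (st (M.nxt q (!(tr (M.reg q)))), tr, 0)
       | Op.inc => (seek (M.reg q) true (M.nxt q (!(tr (M.reg q)))), tr, 0)
       | Op.dec => (seek (M.reg q) false (M.nxt q (!(tr (M.reg q)))), tr, 0)
  | seek r b q, _, tr =>
      if tr r then (put r q, Function.update tr r false, if b then 1 else -1)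
      else (seek r b q, tr, 1)
  | put r q, _, tr => (ret q, Function.update tr r true, 0)
  | ret q, home, tr => if home then (st q, tr, 0) else (ret q, tr, -1)
  | halted, _, tr => (halted, tr, 0)

theorem act_dir (σ : Head M) (b : Bool) (tr : Fin M.B → Bool) :
    (act r0 σ b tr).2.2 = 1 ∨ (act r0 σ b tr).2.2 = 0 ∨ (act r0 σ b tr).2.2 = -1 := by
  cases σ with
  | st q =>
    simp only [act]
    split_ifs
    · simp
    · split <;> simp
  | seek r c q => simp only [act]; split_ifs <;> simp
  | put r q => simp [act]
  | ret q => simp only [act]; split_ifs <;> simp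
  | halted => simp [act]

def newTr (c : Cell M) : Fin M.B → Bool :=
  match c.1 with
  | some σ => (act r0 σ c.2.1 c.2.2).2.1
  | none => c.2.2

def mv (j : ℤ) (c : Cell M) : Option (Head M) :=
  match c.1 with
  | some σ => if (act r0 σ c.2.1 c.2.2).2.2 = j then some (act r0 σ c.2.1 c.2.2).1 else none
  | none => none

/-- new content of a cell from the contents of the three neighbours -/
def loc (a b c : Cell M) : Cell M :=
  ((mv r0 1 a).orElse fun _ => (mv r0 0 b).orElse fun _ => mv r0 (-1) c, b.2.1, newTr r0 b)

/-- the system on the line -/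
def F (x : ℤ → Cell M) : ℤ → Cell M := fun k => loc r0 (x (k - 1)) (x k) (x (k + 1))

/-- configurations with one head and the home flag at `0` -/
def one (σ : Head M) (p : ℤ) (w : ℤ → Fin M.B → Bool) : ℤ → Cell M :=
  fun k => (if k = p then some σ else none, decide (k = 0), w k)

theorem F_one (σ : Head M) (p : ℤ) (w : ℤ → Fin M.B → Bool) :
    F r0 (one σ p w) = one (act r0 σ (decide (p = 0)) (w p)).1
      (p + (act r0 σ (decide (p = 0)) (w p)).2.2)
      (Function.update w p (act r0 σ (decide (p = 0)) (w p)).2.1) := by
  funext k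
  have hmv : ∀ j k, mv r0 j (one σ p w k) = if k = p ∧
      (act r0 σ (decide (p = 0)) (w p)).2.2 = j then
        some (act r0 σ (decide (p = 0)) (w p)).1 else none := by
    intro j k
    by_cases hk : k = p
    · subst hk
      simp [mv, one]
    · simp [mv, one, hk]
  have h3 : newTr r0 (one σ p w k) =
      Function.update w p (act r0 σ (decide (p = 0)) (w p)).2.1 k := by
    by_cases hk : k = p
    · subst hk
      simp [newTr, one]
    · simp [newTr, one, hk, Function.update_of_ne hk]
  change loc r0 (one σ p w (k - 1)) (one σ p w k) (one σ p w (k + 1)) = _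
  unfold loc
  rw [hmv, hmv, hmv, h3]
  have hd := act_dir r0 σ (decide (p = 0)) (w p)
  generalize act r0 σ (decide (p = 0)) (w p) = a at *
  obtain ⟨a1, a2, a3⟩ := a
  dsimp only at hd ⊢
  unfold one
  refine Prod.ext ?_ rfl
  dsimp only
  rcases hd with rfl | rfl | rfl
  · by_cases h : k = p + 1
    · have : k - 1 = p := by omega
      simp [h]
    · have : ¬ (k - 1 = p) := by omega
      simp [h, this]
  · by_cases h : k = p
    · simp [h]
    · simp [h]
  · by_cases h : k = p + -1
    · have : k + 1 = p := by omega
      simp [h]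
    · have : ¬ (k + 1 = p) := by omega
      simp [h, this]

/-- tracks with at most one mark for each register -/
def tk (v : Fin M.B → Option ℤ) : ℤ → Fin M.B → Bool := fun k r => decide (v r = some k)

theorem update_self (w : ℤ → Fin M.B → Bool) (p : ℤ) : Function.update w p (w p) = w :=
  Function.update_eq_self p w

theorem F_halted (p : ℤ) (w : ℤ → Fin M.B → Bool) : F r0 (one halted p w) = one halted p w := by
  rw [F_one]
  simp only [act, update_self, add_zero]

theorem F_seek_go (r : Fin M.B) (b : Bool) (q : M.Q) (p : ℤ) (v : Fin M.B → Option ℤ)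
    (h : v r ≠ some p) : F r0 (one (seek r b q) p (tk v)) = one (seek r b q) (p + 1) (tk v) := by
  rw [F_one]
  have : tk v p r = false := by simp [tk, h]
  simp only [act, this, Bool.false_eq_true, if_false, update_self]

theorem F_seek_found (r : Fin M.B) (b : Bool) (q : M.Q) (p : ℤ) (v : Fin M.B → Option ℤ)
    (h : v r = some p) : F r0 (one (seek r b q) p (tk v)) =
      one (put r q) (p + if b then 1 else -1) (tk (Function.update v r none)) := by
  rw [F_one]
  have : tk v p r = true := by simp [tk, h]
  simp only [act, this, if_true]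
  congr 1
  funext k s
  by_cases hk : k = p
  · subst hk
    rw [Function.update_self]
    by_cases hs : s = r
    · subst hs; simp [tk]
    · simp [tk, Function.update_of_ne hs]
  · rw [Function.update_of_ne hk]
    by_cases hs : s = r
    · subst hs
      simp [tk, h, Ne.symm hk]
    · simp [tk, Function.update_of_ne hs]

theorem F_put (r : Fin M.B) (q : M.Q) (p : ℤ) (v : Fin M.B → Option ℤ) (h : v r = none) :
    F r0 (one (put r q) p (tk v)) = one (ret q) p (tk (Function.update v r (some p))) := by
  rw [F_one]
  simp only [act, add_zero]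
  congr 1
  funext k s
  by_cases hk : k = p
  · subst hk
    rw [Function.update_self]
    by_cases hs : s = r
    · subst hs; simp [tk]
    · simp [tk, Function.update_of_ne hs]
  · rw [Function.update_of_ne hk]
    by_cases hs : s = r
    · subst hs
      simp [tk, h, Ne.symm hk]
    · simp [tk, Function.update_of_ne hs]

theorem F_ret_go (q : M.Q) (p : ℤ) (w : ℤ → Fin M.B → Bool) (h : p ≠ 0) :
    F r0 (one (ret q) p w) = one (ret q) (p - 1) w := by
  rw [F_one]
  simp only [act, decide_eq_true_eq, h, if_false, update_self]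
  rfl

theorem F_ret_home (q : M.Q) (w : ℤ → Fin M.B → Bool) :
    F r0 (one (ret q) 0 w) = one (st q) 0 w := by
  rw [F_one]
  simp only [act, decide_eq_true_eq, if_true, update_self, add_zero]

theorem seek_iter (r : Fin M.B) (b : Bool) (q : M.Q) (v : Fin M.B → Option ℤ) (j : ℕ) :
    ∀ p : ℤ, v r = some (p + j) → (F r0)^[j] (one (seek r b q) p (tk v)) =
      one (seek r b q) (p + j) (tk v) := by
  induction j with
  | zero => intro p _; simp
  | succ j ih =>
    intro p h
    rw [Function.iterate_succ_apply, F_seek_go r0 r b q p v (by rw [h]; simp; omega),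
      ih (p + 1) (by rw [h]; congr 1; push_cast; ring)]
    congr 1
    push_cast; ring

theorem ret_iter (q : M.Q) (w : ℤ → Fin M.B → Bool) (j : ℕ) :
    (F r0)^[j + 1] (one (ret q) j w) = one (st q) 0 w := by
  induction j with
  | zero => simpa using F_ret_home r0 q w
  | succ j ih =>
    rw [Function.iterate_succ_apply, F_ret_go r0 q _ w (by omega)]
    have : ((j + 1 : ℕ) : ℤ) - 1 = j := by push_cast; ring
    rw [this, ih]

/-- tracks of a configuration of the machine -/
def tks (s : Fin M.B → ℕ) : ℤ → Fin M.B → Bool := tk fun r => some (s r : ℤ)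

theorem move_mark (s : Fin M.B → ℕ) (r : Fin M.B) (b : Bool) (q : M.Q)
    (hb : b = false → s r ≠ 0) :
    ∃ t, 1 ≤ t ∧ (F r0)^[t] (one (seek r b q) 0 (tks s)) =
      one (st q) 0 (tks (Function.update s r (if b then s r + 1 else s r - 1))) := by
  have e1 : (F r0)^[s r] (one (seek r b q) 0 (tks s)) = one (seek r b q) (s r) (tks s) := by
    have := seek_iter r0 r b q (fun r => some (s r : ℤ)) (s r) 0 (by simp)
    rw [zero_add] at this
    exact this
  have hv : (((if b then s r + 1 else s r - 1 : ℕ)) : ℤ) = (s r : ℤ) + (if b then 1 else -1) := by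
    cases b with
    | true => simp
    | false =>
      have := hb rfl
      simp only [Bool.false_eq_true, if_false]
      omega
  set v' : ℕ := if b then s r + 1 else s r - 1 with hv'
  refine ⟨(v' + 1) + 1 + 1 + s r, by omega, ?_⟩
  rw [Function.iterate_add_apply, e1, Function.iterate_add_apply, Function.iterate_add_apply,
    Function.iterate_one]
  have h1 : F r0 (one (seek r b q) (s r) (tks s)) =
      one (put r q) (v' : ℤ) (tk (Function.update (fun r => some (s r : ℤ)) r none)) := by
    rw [hv]
    exact F_seek_found r0 r b q _ _ rfl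
  have h2 : F r0 (one (put r q) (v' : ℤ) (tk (Function.update (fun r => some (s r : ℤ)) r none))) =
      one (ret q) (v' : ℤ) (tks (Function.update s r v')) := by
    rw [F_put r0 r q _ _ (Function.update_self ..)]
    congr 1
    unfold tks
    congr 1
    funext i
    by_cases hi : i = r
    · subst hi; simp
    · simp [Function.update_of_ne hi]
  rw [h1, h2, ret_iter]

/-- the system simulates the machine -/
theorem sim_step (q : M.Q) (s : Fin M.B → ℕ) (hq : q ≠ M.hlt) :
    ∃ t, 1 ≤ t ∧ (F r0)^[t] (one (st q) 0 (tks s)) =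
      one (st (M.step (q, s)).1) 0 (tks (M.step (q, s)).2) := by
  classical
  have hz : (!(tks s 0 (M.reg q))) = decide (s (M.reg q) ≠ 0) := by
    simp [tks, tk]
  have hstep : M.step (q, s) = (M.nxt q (decide (s (M.reg q) ≠ 0)),
    Function.update s (M.reg q) ((M.op q (decide (s (M.reg q) ≠ 0))).app (s (M.reg q)))) := rfl
  have hF := F_one r0 (st q) 0 (tks s)
  simp only [act] at hF
  rw [if_neg hq, hz] at hF
  rw [hstep]
  dsimp only
  cases hop : M.op q (decide (s (M.reg q) ≠ 0)) with
  | nop =>
    rw [hop] at hF
    simp only [update_self, add_zero] at hF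
    refine ⟨1, le_rfl, ?_⟩
    rw [Function.iterate_one, hF]
    simp [Op.app]
  | inc =>
    rw [hop] at hF
    simp only [update_self, add_zero] at hF
    obtain ⟨t, ht, e⟩ := move_mark r0 s (M.reg q) true (M.nxt q (decide (s (M.reg q) ≠ 0)))
      (by simp)
    refine ⟨t + 1, by omega, ?_⟩
    rw [Function.iterate_succ_apply, hF, e]
    simp [Op.app]
  | dec =>
    rw [hop] at hF
    simp only [update_self, add_zero] at hF
    obtain ⟨t, ht, e⟩ := move_mark r0 s (M.reg q) false (M.nxt q (decide (s (M.reg q) ≠ 0)))
      (by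
        intro _ h0
        apply M.op_ok q
        have : decide (s (M.reg q) ≠ 0) = false := by simp [h0]
        rw [← this, hop])
    refine ⟨t + 1, by omega, ?_⟩
    rw [Function.iterate_succ_apply, hF, e]
    simp [Op.app]

/-- reaching the `N`-th configuration of the machine -/
theorem sim_run (q0 : M.Q) (s0 : Fin M.B → ℕ) (N : ℕ)
    (h : ∀ j < N, (M.step^[j] (q0, s0)).1 ≠ M.hlt) :
    ∃ t, N ≤ t ∧ (F r0)^[t] (one (st q0) 0 (tks s0)) =
      one (st (M.step^[N] (q0, s0)).1) 0 (tks (M.step^[N] (q0, s0)).2) := by
  induction N with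
  | zero => exact ⟨0, le_rfl, rfl⟩
  | succ N ih =>
    obtain ⟨t, ht, e⟩ := ih (fun j hj => h j (by omega))
    obtain ⟨t', ht', e'⟩ := sim_step r0 (M.step^[N] (q0, s0)).1 (M.step^[N] (q0, s0)).2
      (h N (by omega))
    refine ⟨t' + t, by omega, ?_⟩
    rw [Function.iterate_add_apply, e, e', Function.iterate_succ_apply']

/-- every configuration of the run has one head -/
theorem one_iter (σ : Head M) (p : ℤ) (w : ℤ → Fin M.B → Bool) (t : ℕ) :
    ∃ σ' p' w', (F r0)^[t] (one σ p w) = one σ' p' w' := by
  induction t with
  | zero => exact ⟨σ, p, w, rfl⟩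
  | succ t ih =>
    obtain ⟨σ', p', w', e⟩ := ih
    rw [Function.iterate_succ_apply', e, F_one]
    exact ⟨_, _, _, rfl⟩

theorem halted_iter (p : ℤ) (w : ℤ → Fin M.B → Bool) (t : ℕ) :
    (F r0)^[t] (one halted p w) = one halted p w := by
  induction t with
  | zero => rfl
  | succ t ih => rw [Function.iterate_succ_apply, F_halted, ih]

/-- the final configuration -/
def fin0 (s : Fin M.B → ℕ) : ℤ → Fin M.B → Bool :=
  Function.update (tks s) 0 fun r => if r = r0 then tks s 0 r else false

theorem F_hlt (s : Fin M.B → ℕ) : F r0 (one (st M.hlt) 0 (tks s)) = one halted 0 (fin0 r0 s) := by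
  rw [F_one]
  simp only [act, if_true, add_zero]
  rfl

theorem fin0_r0 (s : Fin M.B → ℕ) (k : ℤ) : fin0 r0 s k r0 = decide (k = s r0) := by
  unfold fin0
  by_cases hk : k = 0
  · subst hk
    simp [tks, tk, eq_comm]
  · rw [Function.update_of_ne hk]
    simp [tks, tk, eq_comm]

theorem fin0_home (s : Fin M.B → ℕ) (r : Fin M.B) (hr : r ≠ r0) : fin0 r0 s 0 r = false := by
  unfold fin0
  rw [Function.update_self, if_neg hr]

end Pool.Agent.Work.MP_8a6a08_lc
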