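import Pool.Agent.Work.MP_8a6a08_lc.Defs
import Pool.Agent.Work.MP_8a6a08_lc.Line

set_option autoImplicit false
set_option linter.all false

namespace Pool.Agent.Work.MP_8a6a08_lc

open Helper86 Head

variable {M : CM} (r0 : Fin M.B)

/-- the blank content -/
def blank : Cell M := (none, false, fun _ => false)

abbrev SS (M : CM) := Cell M × Bool

/-- content of an odd cell together with the mark of its left neighbour -/
def mc (h : Cell M) (m : Bool) : Cell M := (h.1, h.2.1, fun r => if r = r0 then m else h.2.2 r)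

/-- the part of the content stored in the odd cell -/
def hp (c : Cell M) : Cell M := (c.1, c.2.1, fun r => if r = r0 then false else c.2.2 r)

theorem mc_hp (c : Cell M) (h : Cell M) (hh : h = hp r0 c) : mc r0 h (c.2.2 r0) = c := by
  subst hh
  unfold mc hp
  refine Prod.ext rfl (Prod.ext rfl ?_)
  funext r
  dsimp only
  split_ifs with h
  · rw [h]
  · rfl

theorem mc_hp' (c : Cell M) (m : Bool) : mc r0 (hp r0 c) m = mc r0 c m := by
  unfold mc hp
  refine Prod.ext rfl (Prod.ext rfl ?_)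
  funext r
  dsimp only
  split_ifs <;> rfl

/-- local rule -/
def rul (v : Fin 6 → SS M) : SS M :=
  (hp r0 (loc r0 (mc r0 (v 1).1 (v 0).2) (mc r0 (v 3).1 (v 2).2) (mc r0 (v 5).1 (v 4).2)),
    newTr r0 (mc r0 (v 4).1 (v 3).2) r0)

theorem loc_blank (m1 m2 m3 : Bool) :
    hp r0 (loc r0 (mc r0 blank m1) (mc r0 blank m2) (mc r0 blank m3)) = blank := by
  refine Prod.ext rfl (Prod.ext rfl ?_)
  funext r
  simp only [hp, loc, newTr, mc, blank]
  split_ifs <;> rfl

theorem newTr_blank (m : Bool) : newTr r0 (mc r0 blank m) r0 = m := by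
  simp [newTr, mc, blank]

/-- the one-dimensional rule -/
def G1 (c : ℤ → SS M) : ℤ → SS M := fun j => rul r0 fun i => c (j + ((i : ℕ) - 3 : ℤ))

theorem G1_apply (c : ℤ → SS M) (j : ℤ) : G1 r0 c j =
    (hp r0 (loc r0 (mc r0 (c (j - 2)).1 (c (j - 3)).2) (mc r0 (c j).1 (c (j - 1)).2)
      (mc r0 (c (j + 2)).1 (c (j + 1)).2)), newTr r0 (mc r0 (c (j + 1)).1 (c j).2) r0) := by
  have e0 : j + (((0 : Fin 6) : ℕ) - 3 : ℤ) = j - 3 := by simp; ring
  have e1 : j + (((1 : Fin 6) : ℕ) - 3 : ℤ) = j - 2 := by simp; ring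
  have e2 : j + (((2 : Fin 6) : ℕ) - 3 : ℤ) = j - 1 := by
    have : ((2 : Fin 6) : ℕ) = 2 := rfl
    rw [this]; push_cast; ring
  have e3 : j + (((3 : Fin 6) : ℕ) - 3 : ℤ) = j := by
    have : ((3 : Fin 6) : ℕ) = 3 := rfl
    rw [this]; push_cast; ring
  have e4 : j + (((4 : Fin 6) : ℕ) - 3 : ℤ) = j + 1 := by
    have : ((4 : Fin 6) : ℕ) = 4 := rfl
    rw [this]; push_cast; ring
  have e5 : j + (((5 : Fin 6) : ℕ) - 3 : ℤ) = j + 2 := by
    have : ((5 : Fin 6) : ℕ) = 5 := rfl
    rw [this]; push_cast; ring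
  unfold G1 rul
  beta_reduce
  rw [e0, e1, e2, e3, e4, e5]

/-- the system seen by the odd cells -/
def PP (c : ℤ → SS M) : ℤ → Cell M := fun k => mc r0 (c (2 * k + 1)).1 (c (2 * k)).2

theorem PP_G1 (c : ℤ → SS M) : PP r0 (G1 r0 c) = F r0 (PP r0 c) := by
  funext k
  have e1 : (2 * k + 1 - 2 : ℤ) = 2 * (k - 1) + 1 := by ring
  have e2 : (2 * k + 1 - 3 : ℤ) = 2 * (k - 1) := by ring
  have e3 : (2 * k + 1 - 1 : ℤ) = 2 * k := by ring
  have e4 : (2 * k + 1 + 2 : ℤ) = 2 * (k + 1) + 1 := by ring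
  have e5 : (2 * k + 1 + 1 : ℤ) = 2 * (k + 1) := by ring
  unfold PP
  rw [G1_apply, G1_apply]
  dsimp only
  rw [e1, e2, e3, e4, e5]
  exact mc_hp r0 (F r0 (PP r0 c) k) _ rfl

theorem PP_G1_iter (c : ℤ → SS M) (t : ℕ) : PP r0 ((G1 r0)^[t] c) = (F r0)^[t] (PP r0 c) := by
  induction t generalizing c with
  | zero => rfl
  | succ t ih => rw [Function.iterate_succ_apply, ih, PP_G1, Function.iterate_succ_apply]

/-- the configuration of a system on the line, nothing elsewhere -/
def J1 (a : ℤ → Cell M) : ℤ → SS M := fun j =>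
  if j % 2 = 0 then (blank, (a (j / 2)).2.2 r0) else (hp r0 (a (j / 2)), false)

theorem J1_even (a : ℤ → Cell M) (k : ℤ) : J1 r0 a (2 * k) = (blank, (a k).2.2 r0) := by
  unfold J1
  rw [if_pos (by omega), show (2 * k / 2 : ℤ) = k by omega]

theorem J1_odd (a : ℤ → Cell M) (k : ℤ) : J1 r0 a (2 * k + 1) = (hp r0 (a k), false) := by
  unfold J1
  rw [if_neg (by omega), show ((2 * k + 1) / 2 : ℤ) = k by omega]

theorem G1_J1 (a : ℤ → Cell M) : G1 r0 (J1 r0 a) = J1 r0 (F r0 a) := by
  funext j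
  rw [G1_apply]
  rcases Int.even_or_odd' j with ⟨k, rfl | rfl⟩
  · have e1 : (2 * k - 2 : ℤ) = 2 * (k - 1) := by ring
    have e2 : (2 * k + 2 : ℤ) = 2 * (k + 1) := by ring
    rw [e1, e2, J1_even, J1_even, J1_even, J1_even, J1_odd]
    rw [loc_blank]
    refine Prod.ext rfl ?_
    dsimp only
    rw [mc_hp r0 (a k) _ rfl]
    rfl
  · have e1 : (2 * k + 1 - 2 : ℤ) = 2 * (k - 1) + 1 := by ring
    have e2 : (2 * k + 1 - 3 : ℤ) = 2 * (k - 1) := by ring
    have e3 : (2 * k + 1 - 1 : ℤ) = 2 * k := by ring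
    have e4 : (2 * k + 1 + 2 : ℤ) = 2 * (k + 1) + 1 := by ring
    have e5 : (2 * k + 1 + 1 : ℤ) = 2 * (k + 1) := by ring
    rw [e1, e2, e3, e4, e5]
    simp only [J1_even, J1_odd]
    rw [mc_hp r0 _ _ rfl, mc_hp r0 _ _ rfl, mc_hp r0 _ _ rfl, newTr_blank]
    rfl

/-! ### the automaton on `ℤ ^ (d + 1)` -/

section

variable (d : ℕ)

/-- cells of the axis -/
def ax (j : ℤ) : Fin (d + 1) → ℤ := Pi.single 0 j

theorem ax_add (i j : ℤ) : ax d i + ax d j = ax d (i + j) := (Pi.single_add _ _ _).symm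

theorem ax_inj {i j : ℤ} (h : ax d i = ax d j) : i = j := Pi.single_injective _ h

/-- the automaton -/
def AA : CA (d + 1) (SS M) where
  ν := (blank, false)
  k := 6
  nb i := ax d ((i : ℕ) - 3 : ℤ)
  rule := rul r0
  quiet := by
    unfold rul
    dsimp only
    rw [loc_blank, newTr_blank]

theorem AA_ν : (AA r0 d).ν = (blank, false) := rfl

/-- a line parallel to the axis -/
def line {S : Type} (b : Fin (d + 1) → ℤ) (c : Conf (d + 1) S) : ℤ → S := fun j => c (b + ax d j)

theorem line_G (b : Fin (d + 1) → ℤ) (c : Conf (d + 1) (SS M)) :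
    line d b ((AA r0 d).G c) = G1 r0 (line d b c) := by
  funext j
  change rul r0 (fun i => c (b + ax d j + ax d ((i : ℕ) - 3 : ℤ))) =
    rul r0 (fun i => c (b + ax d (j + ((i : ℕ) - 3 : ℤ))))
  simp only [add_assoc, ax_add]

theorem line_G_iter (b : Fin (d + 1) → ℤ) (c : Conf (d + 1) (SS M)) (t : ℕ) :
    line d b ((AA r0 d).G^[t] c) = (G1 r0)^[t] (line d b c) := by
  induction t generalizing c with
  | zero => rfl
  | succ t ih => rw [Function.iterate_succ_apply, ih, line_G, Function.iterate_succ_apply]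

theorem G_apply (c : Conf (d + 1) (SS M)) (x : Fin (d + 1) → ℤ) :
    (AA r0 d).G c x = G1 r0 (line d x c) 0 := by
  rw [← line_G]
  change (AA r0 d).G c x = (AA r0 d).G c (x + ax d 0)
  have : ax d 0 = 0 := Pi.single_zero 0
  rw [this, add_zero]

/-- a system on the axis, nothing elsewhere -/
def JJ (a : ℤ → Cell M) : Conf (d + 1) (SS M) := fun x =>
  if x = ax d (x 0) then J1 r0 a (x 0) else (blank, false)

theorem JJ_ax (a : ℤ → Cell M) (j : ℤ) : JJ r0 d a (ax d j) = J1 r0 a j := by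
  have : ax d j 0 = j := Pi.single_eq_same _ _
  unfold JJ
  rw [this, if_pos rfl]

theorem JJ_off (a : ℤ → Cell M) (x : Fin (d + 1) → ℤ) (h : ∀ j, x ≠ ax d j) :
    JJ r0 d a x = (blank, false) := by
  unfold JJ
  rw [if_neg (h _)]

theorem line_JJ (a : ℤ → Cell M) : line d 0 (JJ r0 d a) = J1 r0 a := by
  funext j
  unfold line
  rw [zero_add, JJ_ax]

theorem G_JJ (a : ℤ → Cell M) : (AA r0 d).G (JJ r0 d a) = JJ r0 d (F r0 a) := by
  funext x
  by_cases hx : ∃ j, x = ax d j
  · obtain ⟨j, rfl⟩ := hx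
    have h1 : (AA r0 d).G (JJ r0 d a) (ax d j) = line d 0 ((AA r0 d).G (JJ r0 d a)) j := by
      unfold line; rw [zero_add]
    rw [h1, line_G, line_JJ, G1_J1, JJ_ax]
  · push Not at hx
    rw [JJ_off r0 d _ x hx, G_apply]
    have : line d x (JJ r0 d a) = fun _ => (blank, false) := by
      funext j
      unfold line
      apply JJ_off
      intro i h
      apply hx (i - j)
      have h2 : ax d i = ax d (i - j) + ax d j := by rw [ax_add]; congr 1; ring
      rw [h2] at h
      exact add_right_cancel h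
    rw [this, G1_apply]
    rw [loc_blank, newTr_blank]

theorem G_JJ_iter (a : ℤ → Cell M) (t : ℕ) :
    (AA r0 d).G^[t] (JJ r0 d a) = JJ r0 d ((F r0)^[t] a) := by
  induction t generalizing a with
  | zero => rfl
  | succ t ih => rw [Function.iterate_succ_apply, G_JJ, ih, Function.iterate_succ_apply]

/-! ### marks -/

/-- configurations consisting of marks only -/
def Marks (c : Conf (d + 1) (SS M)) : Prop := ∀ x, c x = (blank, false) ∨ c x = (blank, true)

theorem Marks.fst {c : Conf (d + 1) (SS M)} (h : Marks d c) (x : Fin (d + 1) → ℤ) :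
    (c x).1 = blank := by
  rcases h x with e | e <;> rw [e]

theorem Marks.G {c : Conf (d + 1) (SS M)} (h : Marks d c) : (AA r0 d).G c = c := by
  funext x
  rw [G_apply, G1_apply]
  have h1 : ∀ j, (line d x c j).1 = blank := fun j => h.fst d _
  rw [h1, h1, h1, h1, loc_blank, newTr_blank]
  have e : line d x c 0 = c x := by
    unfold line
    have : ax d 0 = 0 := Pi.single_zero 0
    rw [this, add_zero]
  rw [e, ← h.fst d x]

theorem Marks.passive {c : Conf (d + 1) (SS M)} (h : Marks d c) :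
    (AA r0 d).CompletelyPassive c := by
  intro c' hsub
  apply Marks.G
  intro x
  by_cases hx : c' x = (blank, false)
  · left; exact hx
  · right
    have := hsub x hx
    rcases h x with e | e
    · exact absurd (this.symm.trans e) hx
    · exact this.symm.trans e

/-- a single mark at the cell `2 k` of the axis -/
def mk (k : ℤ) : Conf (d + 1) (SS M) := fun x => if x = ax d (2 * k) then (blank, true) else (blank, false)

theorem mk_marks (k : ℤ) : Marks d (mk d k : Conf (d + 1) (SS M)) := by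
  intro x
  unfold mk
  split_ifs
  · right; rfl
  · left; rfl

theorem supp_mk (k : ℤ) : (AA r0 d).Supp (mk d k : Conf (d + 1) (SS M)) = {ax d (2 * k)} := by
  ext x
  change mk d k x ≠ (blank, false) ↔ _
  unfold mk
  rw [Set.mem_singleton_iff]
  split_ifs with h
  · simp [h]
  · simp [h]

def TT : Set (Conf (d + 1) (SS M)) := Set.range (mk d)

theorem dom_TT : (AA r0 d).dom (TT d) = Set.range fun k : ℤ => ax d (2 * k) := by
  ext x
  unfold CA.dom TT
  simp only [Set.mem_iUnion, Set.mem_range, exists_prop]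
  constructor
  · rintro ⟨_, ⟨k, rfl⟩, hx⟩
    rw [supp_mk] at hx
    exact ⟨k, hx.symm⟩
  · rintro ⟨k, rfl⟩
    refine ⟨_, ⟨k, rfl⟩, ?_⟩
    rw [supp_mk]
    rfl

end

end Pool.Agent.Work.MP_8a6a08_lc
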