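import Mathlib

set_option autoImplicit false

namespace Pool.Agent.Work.MP_8a6a08_lc

/-- Configurations on the space `ℤ ^ d` with states in `S`. -/
abbrev Conf (d : ℕ) (S : Type) := (Fin d → ℤ) → S

/-- A cellular automaton on `ℤ ^ d` with state set `S`: a quiescent state `ν`, a finite
neighbourhood `nb 0, …, nb (k - 1)` and a local rule sending the all-`ν` neighbourhood to `ν`. -/
structure CA (d : ℕ) (S : Type) where
  ν : S
  k : ℕ
  nb : Fin k → Fin d → ℤ
  rule : (Fin k → S) → S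
  quiet : rule (fun _ => ν) = ν

namespace CA

variable {d : ℕ} {S : Type} (A : CA d S)

/-- The global map. -/
def G (c : Conf d S) : Conf d S := fun x => A.rule fun i => c (x + A.nb i)

/-- The support of a configuration. -/
def Supp (c : Conf d S) : Set (Fin d → ℤ) := {x | c x ≠ A.ν}

/-- Disjointness (of supports). -/
def Disj (c c' : Conf d S) : Prop := Disjoint (A.Supp c) (A.Supp c')

open Classical in
/-- The join `c ⊔ c'` of two configurations with disjoint supports. -/
noncomputable def join (c c' : Conf d S) : Conf d S := fun x => if c x = A.ν then c' x else c x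

/-- `c'` is a subconfiguration of `c`. -/
def Sub (c' c : Conf d S) : Prop := ∀ x ∈ A.Supp c', c x = c' x

/-- `c` is passive. -/
def Passive (c : Conf d S) : Prop := A.G c = c

/-- `c` is completely passive: all its subconfigurations are passive. -/
def CompletelyPassive (c : Conf d S) : Prop := ∀ c', A.Sub c' c → A.Passive c'

/-- `c` passes information to `c'`. -/
def PassesInfo (c c' : Conf d S) : Prop :=
  ∃ t : ℕ, ∃ x ∈ A.Supp (A.G^[t] c'), A.G^[t] (A.join c c') x ≠ A.G^[t] c' x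

open Classical in
/-- The restriction of a configuration to a set of cells (quiescent elsewhere). -/
noncomputable def restrict (c : Conf d S) (V : Set (Fin d → ℤ)) : Conf d S :=
  fun x => if x ∈ V then c x else A.ν

/-- The translate of `f` by `τ`. -/
def shift (τ : Fin d → ℤ) (f : Conf d S) : Conf d S := fun x => f (x - τ)

/-- `u` is the union of the configurations `h f`, `f ∈ F`. -/
def IsUnion (u : Conf d S) (F : Set (Conf d S)) (h : Conf d S → Conf d S) : Prop :=
  (∀ f ∈ F, A.Sub (h f) u) ∧ ∀ x ∈ A.Supp u, ∃ f ∈ F, x ∈ A.Supp (h f)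

/-- `ι : ℕ → T` is recursive: a computable function lists, for each `n`, the non-quiescent cells
of `ι n` with (the numbers of) their states. -/
def Recursive (ι : ℕ → Conf d S) : Prop :=
  ∃ (num : S → ℕ) (g : ℕ → List ((Fin d → ℤ) × ℕ)), Function.Injective num ∧ Computable g ∧
    ∀ n x s, (x, num s) ∈ g n ↔ x ∈ A.Supp (ι n) ∧ ι n x = s

/-- `T` with `ι` is a Turing domain. -/
structure IsTuringDomain (T : Set (Conf d S)) (ι : ℕ → Conf d S) : Prop where
  finite : ∀ f ∈ T, (A.Supp f).Finite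
  mem : ∀ n, ι n ∈ T
  inj : Function.Injective ι
  recursive : A.Recursive ι
  passive : ∀ f ∈ T, A.CompletelyPassive f
  unions : ∀ F : Set (Conf d S), F.Finite → F ⊆ T → ∀ τ : Conf d S → Fin d → ℤ,
    (∀ f ∈ F, ∀ f' ∈ F, f ≠ f' → A.Disj (shift (τ f) f) (shift (τ f') f')) →
    ∀ u, A.IsUnion u F (fun f => shift (τ f) f) → A.CompletelyPassive u

/-- The set `U` of cells used by the Turing domain. -/
def dom (T : Set (Conf d S)) : Set (Fin d → ℤ) := ⋃ f ∈ T, A.Supp f

/-- `c` computes `ψ` with halting cell `α` and halting state `s`. -/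
def ComputesAt (T : Set (Conf d S)) (ι : ℕ → Conf d S) (c : Conf d S) (ψ : ℕ →. ℕ)
    (α : Fin d → ℤ) (s : S) : Prop :=
  α ∈ A.Supp c ∧ s ≠ A.ν ∧ ∀ n, ∀ y ∈ ψ n, A.Disj c (ι n) ∧
    ∃ t : ℕ, A.G^[t] (A.join c (ι n)) α = s ∧
      (∀ t' < t, A.G^[t'] (A.join c (ι n)) α ≠ s) ∧
      ¬ A.PassesInfo (A.restrict (A.G^[t] (A.join c (ι n))) (A.dom T)ᶜ)
          (A.restrict (A.G^[t] (A.join c (ι n))) (A.dom T)) ∧
      A.restrict (A.G^[t] (A.join c (ι n))) (A.dom T) = ι y

/-- `c` computes `ψ`. -/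
def Computes (T : Set (Conf d S)) (ι : ℕ → Conf d S) (c : Conf d S) (ψ : ℕ →. ℕ) : Prop :=
  c ∉ T ∧ ∃ α s, A.ComputesAt T ι c ψ α s

/-- `A` is computation-universal with respect to `T`. -/
def ComputationUniversal (T : Set (Conf d S)) (ι : ℕ → Conf d S) : Prop :=
  ∀ ψ : ℕ →. ℕ, Nat.Partrec ψ → ∃ c, A.Computes T ι c ψ

/-- `c` computes `ψ`, and on inputs outside the domain of `ψ` the halting cell never reaches the
halting state. -/
def ComputesExactly (T : Set (Conf d S)) (ι : ℕ → Conf d S) (c : Conf d S) (ψ : ℕ →. ℕ) : Prop :=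
  c ∉ T ∧ ∃ α s, A.ComputesAt T ι c ψ α s ∧
    ∀ n, ¬ (ψ n).Dom → A.Disj c (ι n) ∧ ∀ t, A.G^[t] (A.join c (ι n)) α ≠ s

/-- `c` is a universal computer. -/
def IsUniversalComputer (T : Set (Conf d S)) (ι : ℕ → Conf d S) (c : Conf d S) : Prop :=
  c ∉ T ∧ ∀ ψ : ℕ →. ℕ, Nat.Partrec ψ → ∃ f ∈ T, ∃ τ : Fin d → ℤ,
    A.Disj (shift τ f) c ∧ shift τ f ∉ T ∧ A.Computes T ι (A.join c (shift τ f)) ψ

end CA

end Pool.Agent.Work.MP_8a6a08_lc
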