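import Pool.Agent.Work.MP_8a6a08_lc.Pos

set_option autoImplicit false
set_option linter.all false

namespace Pool.Agent.Work.MP_8a6a08_lc

open Helper86 Head

theorem main (d : ℕ) : ∃ (S : Type) (_ : Finite S) (A : CA (d + 1) S) (T : Set (Conf (d + 1) S))
    (ι : ℕ → Conf (d + 1) S), A.IsTuringDomain T ι ∧ A.ComputationUniversal T ι ∧
      (∀ ψ : ℕ →. ℕ, Nat.Partrec ψ → ∃ c, (A.Supp c).Finite ∧ A.ComputesExactly T ι c ψ) ∧
      ∀ c, ¬ A.IsUniversalComputer T ι c := by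
  classical
  obtain ⟨M, q0, r0, r1, hne, hh, h1, h2⟩ := universal_CM
  letI := M.fin
  have hcomp : ∀ ψ : ℕ →. ℕ, Nat.Partrec ψ → ∃ c, ((AA r0 d).Supp c).Finite ∧
      (AA r0 d).ComputesExactly (TT d) (iot d) c ψ := by
    intro ψ hψ
    obtain ⟨c, rfl⟩ := Nat.Partrec.Code.exists_code.1 hψ
    have hs : ∀ n, s0 r0 r1 (Encodable.encode c) n =
        fun i => if i = r0 then n else if i = r1 then Encodable.encode c else 0 := fun _ => rfl
    obtain ⟨k1, k2⟩ := computes_of r0 d hh q0 r1 (Encodable.encode c) c.eval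
      (fun n y hy => by
        obtain ⟨N, h3, h4⟩ := h1 c n y hy
        refine ⟨N, ?_, ?_⟩
        · rw [hs]; exact h3
        · rw [hs]; exact h4)
      (fun n hn => by
        apply h2 c n
        obtain ⟨N, h3⟩ := hn
        refine ⟨N, ?_⟩
        rw [hs] at h3
        exact h3)
    exact ⟨comp r0 d q0 r1 (Encodable.encode c), comp_finite r0 d q0 r1 _,
      comp_not_mem r0 d q0 r1 _, ax d 1, shalt, k1,
      fun n hn => ⟨comp_disj r0 d q0 r1 _ n, k2 n hn⟩⟩
  refine ⟨SS M, inferInstance, AA r0 d, TT d, iot d, turing_domain r0 d, ?_, hcomp, no_universal r0 d⟩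
  intro ψ hψ
  obtain ⟨c, _, hc, α, s, h3, _⟩ := hcomp ψ hψ
  exact ⟨c, hc, α, s, h3⟩

end Pool.Agent.Work.MP_8a6a08_lc
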