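import Pool.Agent.Work.MP_8a6a08_lc.Auto

set_option autoImplicit false
set_option linter.all false

namespace Pool.Agent.Work.MP_8a6a08_lc

open Helper86 Head

variable {M : CM} (r0 : Fin M.B) (d : ℕ)

instance finite_head (M : CM) : Finite (Head M) := by
  letI := M.fin
  let f : Head M → Fin 5 × Option (Fin M.B) × Bool × Option M.Q := fun h => match h with
    | st q => (0, none, false, some q)
    | seek r b q => (1, some r, b, some q)
    | put r q => (2, some r, false, some q)
    | ret q => (3, none, false, some q)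
    | halted => (4, none, false, none)
  apply Finite.of_injective f
  intro a b h
  cases a <;> cases b <;> simp [f] at h ⊢ <;> first | exact h | (obtain ⟨h1, h2, h3⟩ := h; exact ⟨h1, h2, h3⟩)

def iot (n : ℕ) : Conf (d + 1) (SS M) := mk d (n : ℤ)

theorem mk_inj {k l : ℤ} (h : (mk d k : Conf (d + 1) (SS M)) = mk d l) : k = l := by
  have h1 : (mk d k : Conf (d + 1) (SS M)) (ax d (2 * k)) = (blank, true) := by
    unfold mk; rw [if_pos rfl]
  rw [h] at h1
  unfold mk at h1
  split_ifs at h1 with h2
  · have := ax_inj d h2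
    omega
  · simp [blank] at h1

theorem primrec_ax : Primrec fun n : ℕ => ax d (2 * (n : ℤ)) := by
  have h0 : Primrec fun n : ℕ => (2 * (n : ℤ) : ℤ) := by
    rw [← Primrec.encode_iff]
    have : (fun n : ℕ => Encodable.encode (2 * (n : ℤ) : ℤ)) = fun n : ℕ => 2 * (2 * n) := by
      funext n
      have e : (2 * (n : ℤ) : ℤ) = Int.ofNat (2 * n) := by simp
      rw [e]
      rfl
    rw [this]
    exact Primrec.nat_mul.comp (Primrec.const 2) (Primrec.nat_mul.comp (Primrec.const 2) Primrec.id)
  have h1 : Primrec₂ fun (i : Fin (d + 1)) (n : ℕ) => ax d (2 * (n : ℤ)) i := by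
    rw [Primrec.fin_curry₁]
    intro i
    by_cases hi : i = 0
    · subst hi
      refine h0.of_eq fun n => ?_
      unfold ax
      rw [Pi.single_eq_same]
    · refine (Primrec.const (0 : ℤ)).of_eq fun n => ?_
      unfold ax
      rw [Pi.single_eq_of_ne hi]
  exact Primrec.fin_curry.2 h1.swap

theorem recursive_iot : (AA r0 d).Recursive (iot d) := by
  letI := M.fin
  have : Countable (SS M) := inferInstance
  obtain ⟨num, hnum⟩ := exists_injective_nat (SS M)
  refine ⟨num, fun n => [(ax d (2 * (n : ℤ)), num (blank, true))], hnum, ?_, ?_⟩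
  · apply Primrec.to_comp
    exact Primrec.list_cons.comp (Primrec.pair (primrec_ax d) (Primrec.const _)) (Primrec.const [])
  · intro n x s
    unfold iot
    rw [supp_mk, List.mem_singleton, Prod.mk.injEq, Set.mem_singleton_iff]
    constructor
    · rintro ⟨rfl, h⟩
      refine ⟨rfl, ?_⟩
      unfold mk
      rw [if_pos rfl]
      exact (hnum h).symm
    · rintro ⟨rfl, h⟩
      unfold mk at h
      rw [if_pos rfl] at h
      exact ⟨rfl, by rw [← h]⟩

theorem turing_domain : (AA r0 d).IsTuringDomain (TT d) (iot d) where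
  finite := by
    rintro _ ⟨k, rfl⟩
    rw [supp_mk]
    exact Set.finite_singleton _
  mem n := ⟨n, rfl⟩
  inj := by
    intro m n h
    have := mk_inj d h
    exact_mod_cast this
  recursive := recursive_iot r0 d
  passive := by
    rintro _ ⟨k, rfl⟩
    exact (mk_marks d k).passive r0 d
  unions := by
    intro F _ hF τ _ u hu
    apply Marks.passive
    intro x
    by_cases hx : u x = (blank, false)
    · left; exact hx
    · right
      obtain ⟨f, hf, hxf⟩ := hu.2 x hx
      obtain ⟨k, rfl⟩ := hF hf
      have h1 := hu.1 _ hf x hxf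
      rw [h1]
      rcases mk_marks (M := M) d k (x - τ (mk d k)) with e | e
      · exact absurd e hxf
      · exact e

/-! ### no universal computer -/

/-- restriction and join -/
theorem join_restrict {S : Type} {D : ℕ} (A : CA D S) (e : Conf D S) (V : Set (Fin D → ℤ)) :
    A.join (A.restrict e Vᶜ) (A.restrict e V) = e := by
  classical
  funext x
  unfold CA.join CA.restrict
  by_cases hx : x ∈ V
  · have : x ∉ Vᶜ := fun h => h hx
    rw [if_neg this, if_pos rfl, if_pos hx]
  · have : x ∈ Vᶜ := hx
    rw [if_pos this, if_neg hx]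
    split_ifs with h
    · exact h.symm
    · rfl

theorem mk_iter (k : ℤ) (t : ℕ) :
    (AA r0 d).G^[t] (mk d k : Conf (d + 1) (SS M)) = mk d k := by
  induction t with
  | zero => rfl
  | succ t ih => rw [Function.iterate_succ_apply, (mk_marks d k).G r0 d, ih]

/-- the part of a configuration seen by the odd cells of the axis -/
def vis (c : Conf (d + 1) (SS M)) : ℤ → Cell M := PP r0 (line d 0 c)

theorem vis_iter (c : Conf (d + 1) (SS M)) (t : ℕ) :
    vis r0 d ((AA r0 d).G^[t] c) = (F r0)^[t] (vis r0 d c) := by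
  unfold vis
  rw [line_G_iter, PP_G1_iter]

theorem vis_r0 (c : Conf (d + 1) (SS M)) (k : ℤ) :
    (vis r0 d c k).2.2 r0 = (c (ax d (2 * k))).2 := by
  unfold vis PP line mc
  dsimp only
  rw [if_pos rfl, zero_add]

/-- marks outside the Turing domain are invisible -/
theorem vis_join (c g h : Conf (d + 1) (SS M)) (hg : Marks d g)
    (hgU : ∀ k : ℤ, g (ax d (2 * k)) = (blank, false)) (hh : Marks d h) :
    vis r0 d ((AA r0 d).join ((AA r0 d).join c g) h) = vis r0 d ((AA r0 d).join c h) := by
  classical
  funext k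
  unfold vis PP line
  simp only [zero_add]
  congr 1
  · unfold CA.join
    rw [AA_ν]
    by_cases hc : c (ax d (2 * k + 1)) = (blank, false)
    · rw [if_pos hc, if_pos hc, hh.fst]
      split_ifs
      · rw [hh.fst]
      · rw [hg.fst]
    · rw [if_neg hc, if_neg hc]
  · unfold CA.join
    rw [AA_ν, hgU k]
    by_cases hc : c (ax d (2 * k)) = (blank, false)
    · rw [if_pos hc, if_pos rfl, if_pos hc]
    · rw [if_neg hc, if_neg hc]

/-- what happens to the marks once a computation with input `0` has stopped -/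
theorem after_halt (c g : Conf (d + 1) (SS M)) (hg : Marks d g)
    (hgU : ∀ k : ℤ, g (ax d (2 * k)) = (blank, false)) (ψ : ℕ →. ℕ) (y : ℕ) (hy : y ∈ ψ 0)
    (hc : (AA r0 d).Computes (TT d) (iot d) ((AA r0 d).join c g) ψ) :
    ∃ t0 : ℕ, (∀ k : ℤ, ((F r0)^[t0] (vis r0 d ((AA r0 d).join c (iot d 0))) k).2.2 r0 =
        decide (k = y)) ∧
      ∀ s : ℕ, ((F r0)^[s + t0] (vis r0 d ((AA r0 d).join c (iot d 0))) y).2.2 r0 = true := by
  classical
  obtain ⟨_, α, s, _, _, hcomp⟩ := hc
  obtain ⟨_, t0, _, _, hpass, hout⟩ := hcomp 0 y hy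
  set e := (AA r0 d).G^[t0] ((AA r0 d).join ((AA r0 d).join c g) (iot d 0)) with he
  have hvis : ∀ s : ℕ, vis r0 d ((AA r0 d).G^[s] e) =
      (F r0)^[s + t0] (vis r0 d ((AA r0 d).join c (iot d 0))) := by
    intro s
    rw [he, ← Function.iterate_add_apply, vis_iter, vis_join r0 d c g (iot d 0) hg hgU (mk_marks d _)]
  refine ⟨t0, ?_, ?_⟩
  · intro k
    have h1 := hvis 0
    rw [zero_add] at h1
    rw [← h1, vis_r0]
    change (e (ax d (2 * k))).2 = _
    have h2 := congrFun hout (ax d (2 * k))
    unfold CA.restrict at h2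
    rw [if_pos (by rw [dom_TT]; exact ⟨k, rfl⟩)] at h2
    rw [h2]
    unfold iot mk
    by_cases hk : k = y
    · subst hk; simp
    · rw [if_neg (fun h => hk (by have := ax_inj d h; omega))]
      simp [hk]
  · intro s
    rw [← hvis s, vis_r0]
    by_contra hcon
    apply hpass
    refine ⟨s, ax d (2 * (y : ℤ)), ?_, ?_⟩
    · rw [hout]
      unfold iot
      rw [mk_iter, supp_mk]
      rfl
    · rw [join_restrict, hout]
      intro heq
      apply hcon
      rw [heq]
      unfold iot
      rw [mk_iter]
      unfold mk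
      rw [if_pos rfl]

theorem no_universal (c : Conf (d + 1) (SS M)) :
    ¬ (AA r0 d).IsUniversalComputer (TT d) (iot d) c := by
  rintro ⟨_, h⟩
  have aux : ∀ y : ℕ, ∃ t0 : ℕ,
      (∀ k : ℤ, ((F r0)^[t0] (vis r0 d ((AA r0 d).join c (iot d 0))) k).2.2 r0 =
        decide (k = y)) ∧
      ∀ s : ℕ, ((F r0)^[s + t0] (vis r0 d ((AA r0 d).join c (iot d 0))) y).2.2 r0 = true := by
    intro y
    obtain ⟨f, hf, τ, _, hτ, hcomp⟩ := h (fun _ => Part.some y)
      (Nat.Partrec.of_primrec (Nat.Primrec.const y))
    have hm : Marks d (CA.shift τ f) := by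
      obtain ⟨k, rfl⟩ := hf
      intro x
      exact mk_marks d k _
    have hU : ∀ k : ℤ, CA.shift τ f (ax d (2 * k)) = (blank, false) := by
      intro k
      rcases hm (ax d (2 * k)) with e | e
      · exact e
      · exfalso
        apply hτ
        obtain ⟨l, rfl⟩ := hf
        refine ⟨k, ?_⟩
        have hl : ax d (2 * k) - τ = ax d (2 * l) := by
          by_contra hne
          unfold CA.shift mk at e
          rw [if_neg hne] at e
          simp [blank] at e
        funext x
        unfold CA.shift mk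
        by_cases hx : x = ax d (2 * k)
        · subst hx
          rw [if_pos rfl, if_pos hl]
        · rw [if_neg hx, if_neg]
          intro hx'
          apply hx
          have : x - τ = ax d (2 * k) - τ := hx'.trans hl.symm
          exact sub_left_injective this
    exact after_halt r0 d c _ hm hU _ y (Part.mem_some y) hcomp
  obtain ⟨t0, h0, h0'⟩ := aux 0
  obtain ⟨t1, h1, h1'⟩ := aux 1
  rcases le_total t0 t1 with hle | hle
  · have e1 := h0' (t1 - t0)
    rw [Nat.sub_add_cancel hle, h1] at e1
    simp at e1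
  · have e1 := h1' (t0 - t1)
    rw [Nat.sub_add_cancel hle, h0] at e1
    simp at e1

end Pool.Agent.Work.MP_8a6a08_lc
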