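import Pool.Agent.Work.MP_8a6a08_lc.Neg

set_option autoImplicit false
set_option linter.all false

namespace Pool.Agent.Work.MP_8a6a08_lc

open Helper86 Head

variable {M : CM} (r0 : Fin M.B) (d : ℕ)

/-- initial positions of the marks on the tracks -/
def v0 (r1 : Fin M.B) (e : ℕ) : Fin M.B → Option ℤ := fun r =>
  if r = r0 then none else some (if r = r1 then (e : ℤ) else 0)

/-- initial contents of the registers -/
def s0 (r1 : Fin M.B) (e n : ℕ) : Fin M.B → ℕ := fun i =>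
  if i = r0 then n else if i = r1 then e else 0

/-- the configuration of the computer -/
def comp (q0 : M.Q) (r1 : Fin M.B) (e : ℕ) : Conf (d + 1) (SS M) :=
  JJ r0 d (one (st q0) 0 (tk (v0 r0 r1 e)))

theorem tk_v0 (r1 : Fin M.B) (e n : ℕ) (k : ℤ) (r : Fin M.B) (hr : r ≠ r0) :
    tk (v0 r0 r1 e) k r = tks (s0 r0 r1 e n) k r := by
  unfold tks tk v0 s0
  beta_reduce
  rw [if_neg hr, if_neg hr]
  split_ifs <;> simp

theorem comp_even (q0 : M.Q) (r1 : Fin M.B) (e : ℕ) (k : ℤ) :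
    comp r0 d q0 r1 e (ax d (2 * k)) = (blank, false) := by
  unfold comp
  rw [JJ_ax, J1_even]
  simp [one, tk, v0]

theorem comp_odd (q0 : M.Q) (r1 : Fin M.B) (e n : ℕ) (k : ℤ) :
    comp r0 d q0 r1 e (ax d (2 * k + 1)) =
      (hp r0 (one (st q0) 0 (tks (s0 r0 r1 e n)) k), false) := by
  unfold comp
  rw [JJ_ax, J1_odd]
  unfold one hp
  refine Prod.ext (Prod.ext rfl (Prod.ext rfl ?_)) rfl
  funext r
  dsimp only
  split_ifs with hr
  · rfl
  · exact tk_v0 r0 r1 e n k r hr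

theorem join_comp (q0 : M.Q) (r1 : Fin M.B) (e n : ℕ) :
    (AA r0 d).join (comp r0 d q0 r1 e) (iot d n) =
      JJ r0 d (one (st q0) 0 (tks (s0 r0 r1 e n))) := by
  classical
  funext x
  unfold CA.join
  rw [AA_ν]
  by_cases hx : ∃ j, x = ax d j
  · obtain ⟨j, rfl⟩ := hx
    rcases Int.even_or_odd' j with ⟨k, rfl | rfl⟩
    · rw [comp_even, if_pos rfl, JJ_ax, J1_even]
      unfold iot mk
      by_cases hk : k = n
      · subst hk
        simp [one, tks, tk, s0]
      · rw [if_neg (fun h => hk (by have := ax_inj d h; omega))]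
        simp [one, tks, tk, s0, Ne.symm hk]
    · have h1 : iot d n (ax d (2 * k + 1)) = ((blank, false) : SS M) := by
        unfold iot mk
        rw [if_neg (fun h => by have := ax_inj d h; omega)]
      rw [h1, comp_odd r0 d q0 r1 e n k, JJ_ax, J1_odd]
      split_ifs with h
      · exact h.symm
      · rfl
  · push Not at hx
    have h1 : comp r0 d q0 r1 e x = (blank, false) := JJ_off r0 d _ x hx
    rw [h1, if_pos rfl, JJ_off r0 d _ x hx]
    unfold iot mk
    rw [if_neg (hx _)]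

theorem comp_one (q0 : M.Q) (r1 : Fin M.B) (e : ℕ) :
    (comp r0 d q0 r1 e (ax d 1)).1.1 = some (st q0) := by
  have := comp_odd r0 d q0 r1 e 0 0
  rw [mul_zero, zero_add] at this
  rw [this]
  simp [hp, one]

theorem comp_disj (q0 : M.Q) (r1 : Fin M.B) (e n : ℕ) :
    (AA r0 d).Disj (comp r0 d q0 r1 e) (iot d n) := by
  unfold CA.Disj iot
  rw [supp_mk, Set.disjoint_singleton_right]
  intro h
  exact h (comp_even r0 d q0 r1 e n)

theorem comp_not_mem (q0 : M.Q) (r1 : Fin M.B) (e : ℕ) :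
    comp r0 d q0 r1 e ∉ (TT d : Set (Conf (d + 1) (SS M))) := by
  rintro ⟨k, hk⟩
  have h1 := comp_one r0 d q0 r1 e
  rw [← hk, (mk_marks d k).fst] at h1
  simp [blank] at h1

theorem comp_finite (q0 : M.Q) (r1 : Fin M.B) (e : ℕ) :
    ((AA r0 d).Supp (comp r0 d q0 r1 e)).Finite := by
  classical
  have hfin : ((fun k : ℤ => ax d (2 * k + 1)) '' {0, (e : ℤ)}).Finite :=
    (Set.toFinite _).image _
  apply hfin.subset
  intro x hx
  by_cases hx' : ∃ j, x = ax d j
  · obtain ⟨j, rfl⟩ := hx'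
    rcases Int.even_or_odd' j with ⟨k, rfl | rfl⟩
    · exact absurd (comp_even r0 d q0 r1 e k) hx
    · refine ⟨k, ?_, rfl⟩
      by_contra hk
      simp only [Set.mem_insert_iff, Set.mem_singleton_iff, not_or] at hk
      apply hx
      rw [comp_odd r0 d q0 r1 e 0 k]
      rw [AA_ν]
      unfold hp one blank
      refine Prod.ext (Prod.ext ?_ (Prod.ext ?_ ?_)) rfl
      · simp [hk.1]
      · simp [hk.1]
      · funext r
        dsimp only
        split_ifs with hr
        · rfl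
        · rw [← tk_v0 r0 r1 e 0 k r hr]
          unfold tk v0
          rw [if_neg hr]
          split_ifs with h1
          · simpa using Ne.symm hk.2
          · simpa using Ne.symm hk.1
  · push Not at hx'
    exact absurd (JJ_off r0 d _ x hx') hx

/-- the halting state -/
def shalt : SS M := ((some halted, true, fun _ => false), false)

theorem JJ_shalt (σ : Head M) (p : ℤ) (w : ℤ → Fin M.B → Bool)
    (h : JJ r0 d (one σ p w) (ax d 1) = shalt) : σ = halted ∧ p = 0 := by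
  rw [JJ_ax, show (1 : ℤ) = 2 * 0 + 1 by ring, J1_odd] at h
  have h1 : (if (0 : ℤ) = p then some σ else none) = some halted := congrArg (fun z => z.1.1) h
  split_ifs at h1 with hp
  · exact ⟨Option.some_inj.1 h1, hp.symm⟩

theorem JJ_fin0 (s : Fin M.B → ℕ) :
    JJ r0 d (one halted 0 (fin0 r0 s)) (ax d 1) = shalt := by
  rw [JJ_ax, show (1 : ℤ) = 2 * 0 + 1 by ring, J1_odd]
  unfold shalt hp one
  refine Prod.ext (Prod.ext ?_ (Prod.ext ?_ ?_)) rfl
  · simp
  · simp
  · funext r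
    dsimp only
    split_ifs with hr
    · rfl
    · exact fin0_home r0 s r hr

theorem restrict_fin0 (s : Fin M.B → ℕ) :
    (AA r0 d).restrict (JJ r0 d (one halted 0 (fin0 r0 s))) ((AA r0 d).dom (TT d)) =
      iot d (s r0) := by
  classical
  funext x
  unfold CA.restrict
  rw [dom_TT]
  split_ifs with hx
  · obtain ⟨k, rfl⟩ := hx
    dsimp only
    rw [JJ_ax, J1_even]
    unfold iot mk
    have e : (one halted 0 (fin0 r0 s) k).2.2 r0 = decide (k = s r0) := fin0_r0 r0 s k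
    rw [e]
    by_cases hk : k = s r0
    · subst hk; simp
    · rw [if_neg (fun h => hk (by have := ax_inj d h; omega))]
      simp [hk]
  · unfold iot mk
    rw [if_neg]
    · rfl
    · rintro rfl
      exact hx ⟨_, rfl⟩

theorem fixed_iter (a : ℤ → Cell M) (h : F r0 a = a) (t : ℕ) :
    (AA r0 d).G^[t] (JJ r0 d a) = JJ r0 d a := by
  induction t with
  | zero => rfl
  | succ t ih => rw [Function.iterate_succ_apply, G_JJ, h, ih]

/-- the result of the simulation -/
theorem computes_of (hh : ∀ z, M.nxt M.hlt z = M.hlt ∧ M.op M.hlt z = Op.nop)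
    (q0 : M.Q) (r1 : Fin M.B) (e : ℕ) (ψ : ℕ →. ℕ)
    (h1 : ∀ n, ∀ y ∈ ψ n, ∃ N, (M.step^[N] (q0, s0 r0 r1 e n)).1 = M.hlt ∧
      (M.step^[N] (q0, s0 r0 r1 e n)).2 r0 = y)
    (h2 : ∀ n, (∃ N, (M.step^[N] (q0, s0 r0 r1 e n)).1 = M.hlt) → (ψ n).Dom) :
    (AA r0 d).ComputesAt (TT d) (iot d) (comp r0 d q0 r1 e) ψ (ax d 1) shalt ∧
      ∀ n, ¬ (ψ n).Dom → ∀ t, (AA r0 d).G^[t] ((AA r0 d).join (comp r0 d q0 r1 e) (iot d n))
        (ax d 1) ≠ shalt := by
  classical
  refine ⟨⟨?_, ?_, ?_⟩, ?_⟩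
  · intro h
    have h3 := comp_one r0 d q0 r1 e
    rw [h] at h3
    simp [AA_ν, blank] at h3
  · intro h
    have : (some halted : Option (Head M)) = none := congrArg (fun z => z.1.1) h
    simp at this
  · intro n y hy
    refine ⟨comp_disj r0 d q0 r1 e n, ?_⟩
    obtain ⟨N, hN, hNy⟩ := h1 n y hy
    have hex : ∃ N, (M.step^[N] (q0, s0 r0 r1 e n)).1 = M.hlt := ⟨N, hN⟩
    obtain ⟨N0, hN0, hmin⟩ : ∃ N0, (M.step^[N0] (q0, s0 r0 r1 e n)).1 = M.hlt ∧
        ∀ j < N0, (M.step^[j] (q0, s0 r0 r1 e n)).1 ≠ M.hlt :=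
      ⟨Nat.find hex, Nat.find_spec hex, fun j hj => Nat.find_min hex hj⟩
    have hle : N0 ≤ N := by
      by_contra hlt
      exact hmin N (by omega) hN
    have hstay : ∀ s : Fin M.B → ℕ, M.step (M.hlt, s) = (M.hlt, s) := by
      intro s
      unfold CM.step
      dsimp only
      rw [(hh _).1, (hh _).2]
      simp [Op.app]
    have hstayN : ∀ (k : ℕ) (s : Fin M.B → ℕ), M.step^[k] (M.hlt, s) = (M.hlt, s) := by
      intro k s
      induction k with
      | zero => rfl
      | succ k ih => rw [Function.iterate_succ_apply, hstay, ih]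
    have hN0y : (M.step^[N0] (q0, s0 r0 r1 e n)).2 r0 = y := by
      have : M.step^[N] (q0, s0 r0 r1 e n) = M.step^[N0] (q0, s0 r0 r1 e n) := by
        obtain ⟨k, rfl⟩ := Nat.exists_eq_add_of_le hle
        rw [Nat.add_comm, Function.iterate_add_apply]
        have e1 : M.step^[N0] (q0, s0 r0 r1 e n) = (M.hlt, (M.step^[N0] (q0, s0 r0 r1 e n)).2) :=
          Prod.ext hN0 rfl
        rw [e1, hstayN]
      rw [← this, hNy]
    obtain ⟨t, _, ht⟩ := sim_run r0 q0 (s0 r0 r1 e n) N0 hmin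
    rw [hN0] at ht
    set s := (M.step^[N0] (q0, s0 r0 r1 e n)).2 with hs
    have ht1 : (F r0)^[t + 1] (one (st q0) 0 (tks (s0 r0 r1 e n))) = one halted 0 (fin0 r0 s) := by
      rw [Function.iterate_succ_apply', ht, F_hlt]
    rw [join_comp]
    have hex2 : ∃ t, (AA r0 d).G^[t] (JJ r0 d (one (st q0) 0 (tks (s0 r0 r1 e n)))) (ax d 1)
        = shalt := ⟨t + 1, by rw [G_JJ_iter, ht1, JJ_fin0]⟩
    obtain ⟨T, hT, hTmin⟩ : ∃ T, (AA r0 d).G^[T] (JJ r0 d (one (st q0) 0 (tks (s0 r0 r1 e n))))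
        (ax d 1) = shalt ∧ ∀ t' < T, (AA r0 d).G^[t'] (JJ r0 d (one (st q0) 0
          (tks (s0 r0 r1 e n)))) (ax d 1) ≠ shalt :=
      ⟨Nat.find hex2, Nat.find_spec hex2, fun j hj => Nat.find_min hex2 hj⟩
    have hTle : T ≤ t + 1 := by
      by_contra hlt
      exact hTmin (t + 1) (by omega) (by rw [G_JJ_iter, ht1, JJ_fin0])
    have hTF : (F r0)^[T] (one (st q0) 0 (tks (s0 r0 r1 e n))) = one halted 0 (fin0 r0 s) := by
      obtain ⟨σ, p, w, e1⟩ := one_iter r0 (st q0) 0 (tks (s0 r0 r1 e n)) T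
      rw [G_JJ_iter, e1] at hT
      obtain ⟨rfl, rfl⟩ := JJ_shalt r0 d σ p w hT
      have e2 : (F r0)^[t + 1] (one (st q0) 0 (tks (s0 r0 r1 e n))) = one halted 0 w := by
        obtain ⟨k, hk⟩ := Nat.exists_eq_add_of_le hTle
        rw [hk, Nat.add_comm, Function.iterate_add_apply, e1, halted_iter]
      rw [e1, ← e2, ht1]
    refine ⟨T, hT, hTmin, ?_, ?_⟩
    · rintro ⟨k, x, hx, hne⟩
      apply hne
      rw [join_restrict, G_JJ_iter, hTF]
      rw [fixed_iter r0 d _ (F_halted r0 0 _), restrict_fin0]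
      rw [G_JJ_iter, hTF, restrict_fin0] at hx
      unfold iot at hx ⊢
      rw [mk_iter] at hx ⊢
      rw [supp_mk, Set.mem_singleton_iff] at hx
      have h3 := congrFun (restrict_fin0 r0 d s) x
      unfold CA.restrict at h3
      rw [if_pos (by rw [dom_TT, hx]; exact ⟨_, rfl⟩)] at h3
      exact h3
    · rw [G_JJ_iter, hTF, restrict_fin0, hN0y]
  · intro n hn t ht
    apply hn
    apply h2
    by_contra hno
    push Not at hno
    rw [join_comp, G_JJ_iter] at ht
    obtain ⟨σ, p, w, e1⟩ := one_iter r0 (st q0) 0 (tks (s0 r0 r1 e n)) t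
    rw [e1] at ht
    obtain ⟨rfl, rfl⟩ := JJ_shalt r0 d σ p w ht
    obtain ⟨t', ht', e2⟩ := sim_run r0 q0 (s0 r0 r1 e n) t (fun j _ => hno j)
    obtain ⟨k, hk⟩ := Nat.exists_eq_add_of_le ht'
    rw [hk, Nat.add_comm, Function.iterate_add_apply, e1, halted_iter] at e2
    have e3 := congrFun e2 0
    have e4 : (some halted : Option (Head M)) = some (st (M.step^[t] (q0, s0 r0 r1 e n)).1) := by
      have := congrArg Prod.fst e3
      simpa [one] using this
    simp at e4

end Pool.Agent.Work.MP_8a6a08_lc
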